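import Pool.Agent.Run7.h888.DD.APc

/-! Piece AP: the a priori estimate. -/

set_option autoImplicit false
set_option linter.unusedSectionVars false

open MeasureTheory Set Filter Topology Metric
open scoped InnerProductSpace NNReal ENNReal

namespace Run7.h888.DD

open H772R2.NSR (Frame prim_cont memLp_ii ae_deriv_of_prim prim_shift hasDerivAt_prim
  prim_continuousOn ii_of_cont ii_mono)
open H772R2.NSG (St by_parts ii_of_int int_inner mem_cont)
open Pool.Agent.W795.TQ (Str Univ FH)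
open Run7.h744.DD (IsJ Bg wt)

theorem wt_cont (ν lam : ℝ) : Continuous fun t => wt ν lam t := by
  unfold wt; fun_prop

theorem wt_pos (ν lam t : ℝ) : 0 < wt ν lam t := Real.exp_pos _

theorem wt_le_one {ν lam t : ℝ} (hν : 0 < ν) (ht : 0 ≤ t) : wt ν lam t ≤ 1 := by
  unfold wt
  rw [Real.exp_le_one_iff]
  have : 0 ≤ ν * lam ^ 2 * t / 2 := by positivity
  linarith

theorem int_exp {κ T : ℝ} (hκ : 0 < κ) :
    ∫ t in (0 : ℝ)..T, Real.exp (-(κ * t)) ≤ 1 / κ := by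
  have h1 : ∀ t ∈ uIcc 0 T, HasDerivAt (fun t => -(Real.exp (-(κ * t)) / κ))
      (Real.exp (-(κ * t))) t := by
    intro t _
    have h2 : HasDerivAt (fun t : ℝ => -(κ * t)) (-(κ * 1)) t :=
      ((hasDerivAt_id t).const_mul κ).neg
    have h3 : HasDerivAt (fun t : ℝ => -(Real.exp (-(κ * t)) / κ))
      (-(Real.exp (-(κ * t)) * -(κ * 1) / κ)) t := (h2.exp.div_const κ).neg
    have e1 : -(Real.exp (-(κ * t)) * -(κ * 1) / κ) = Real.exp (-(κ * t)) := by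
      have hk : κ ≠ 0 := hκ.ne'
      field_simp
      try ring
    rwa [e1] at h3
  rw [intervalIntegral.integral_eq_sub_of_hasDerivAt h1
    ((by fun_prop : Continuous fun t => Real.exp (-(κ * t))).intervalIntegrable _ _)]
  have h4 : 0 ≤ Real.exp (-(κ * T)) / κ := by positivity
  simp only [mul_zero, neg_zero, Real.exp_zero]
  linarith

theorem int_wt {ν lam T : ℝ} (hν : 0 < ν) (hl : 0 < lam) :
    ∫ t in (0 : ℝ)..T, wt ν lam t ≤ 2 / (ν * lam ^ 2) := by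
  have h := int_exp (κ := ν * lam ^ 2 / 2) (T := T) (by positivity)
  have e1 : 1 / (ν * lam ^ 2 / 2) = 2 / (ν * lam ^ 2) := by field_simp
  rw [e1] at h
  refine le_trans (le_of_eq ?_) h
  refine intervalIntegral.integral_congr fun t _ => ?_
  unfold wt
  ring_nf

theorem int_wt2 {ν lam T : ℝ} (hν : 0 < ν) (hl : 0 < lam) :
    ∫ t in (0 : ℝ)..T, wt ν lam t ^ 2 ≤ 1 / (ν * lam ^ 2) := by
  have h := int_exp (κ := ν * lam ^ 2) (T := T) (by positivity)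
  refine le_trans (le_of_eq ?_) h
  refine intervalIntegral.integral_congr fun t _ => ?_
  unfold wt
  rw [← Real.exp_nat_mul]
  congr 1
  push_cast
  ring

/-- the integral of the majorant -/
theorem int_a {ν lam Q T : ℝ} (hν : 0 < ν) (hl : 1 ≤ lam) (hQ : 0 < Q)
    (hTl : T ≤ 1 / lam) :
    ∫ t in (0 : ℝ)..T, Q * (lam * wt ν lam t + 1) ≤ Q * (2 / ν + 1) / lam := by
  have hl0 : 0 < lam := by linarith
  have i1 : IntervalIntegrable (fun t => lam * wt ν lam t) volume 0 T :=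
    ((wt_cont ν lam).const_mul lam).intervalIntegrable _ _
  rw [intervalIntegral.integral_const_mul, intervalIntegral.integral_add i1
    intervalIntegrable_const, intervalIntegral.integral_const_mul,
    intervalIntegral.integral_const, smul_eq_mul, mul_one, sub_zero]
  have h1 := mul_le_mul_of_nonneg_left (int_wt (T := T) hν hl0) hl0.le
  have e1 : lam * (2 / (ν * lam ^ 2)) = 2 / ν / lam := by field_simp
  rw [e1] at h1
  have h2 : lam * (∫ t in (0 : ℝ)..T, wt ν lam t) + T ≤ (2 / ν + 1) / lam := by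
    rw [add_div]; linarith
  have h3 := mul_le_mul_of_nonneg_left h2 hQ.le
  rwa [← mul_div_assoc] at h3

/-- the integral of the square of the majorant, with a power `j` of `λ` -/
theorem int_a2 {ν lam Q T : ℝ} (j : ℕ) (hν : 0 < ν) (hl : 1 ≤ lam) (hT : 0 ≤ T)
    (hTl : T ≤ 1 / lam) :
    ∫ t in (0 : ℝ)..T, (Q * (lam ^ (j + 1) * wt ν lam t + 1)) ^ 2 ≤
      2 * Q ^ 2 * (1 / ν + 1) * lam ^ (2 * j) := by
  have hl0 : 0 < lam := by linarith
  have hwc := wt_cont ν lam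
  have i0 : IntervalIntegrable (fun t => (Q * (lam ^ (j + 1) * wt ν lam t + 1)) ^ 2) volume 0 T :=
    (by fun_prop : Continuous fun t => (Q * (lam ^ (j + 1) * wt ν lam t + 1)) ^ 2).intervalIntegrable
      _ _
  have i1 : IntervalIntegrable (fun t => 2 * Q ^ 2 * lam ^ (2 * (j + 1)) * wt ν lam t ^ 2)
      volume 0 T := (by fun_prop : Continuous fun t =>
        2 * Q ^ 2 * lam ^ (2 * (j + 1)) * wt ν lam t ^ 2).intervalIntegrable _ _
  have i2 : IntervalIntegrable (fun _ : ℝ => 2 * Q ^ 2) volume 0 T := intervalIntegrable_const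
  have h1 : ∫ t in (0 : ℝ)..T, (Q * (lam ^ (j + 1) * wt ν lam t + 1)) ^ 2 ≤
      ∫ t in (0 : ℝ)..T, (2 * Q ^ 2 * lam ^ (2 * (j + 1)) * wt ν lam t ^ 2 + 2 * Q ^ 2) := by
    refine intervalIntegral.integral_mono_on hT i0 (i1.add i2) fun t _ => ?_
    have e1 : 2 * Q ^ 2 * lam ^ (2 * (j + 1)) * wt ν lam t ^ 2 + 2 * Q ^ 2 -
        (Q * (lam ^ (j + 1) * wt ν lam t + 1)) ^ 2 = (Q * (lam ^ (j + 1) * wt ν lam t - 1)) ^ 2 := by
      have : lam ^ (2 * (j + 1)) = (lam ^ (j + 1)) ^ 2 := by rw [← pow_mul, mul_comm]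
      rw [this]; ring
    have := sq_nonneg (Q * (lam ^ (j + 1) * wt ν lam t - 1))
    linarith
  rw [intervalIntegral.integral_add i1 i2, intervalIntegral.integral_const_mul,
    intervalIntegral.integral_const, smul_eq_mul, sub_zero] at h1
  have h2 := mul_le_mul_of_nonneg_left (int_wt2 (T := T) hν hl0)
    (by positivity : 0 ≤ 2 * Q ^ 2 * lam ^ (2 * (j + 1)))
  have e2 : 2 * Q ^ 2 * lam ^ (2 * (j + 1)) * (1 / (ν * lam ^ 2)) =
      2 * Q ^ 2 * (1 / ν) * lam ^ (2 * j) := by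
    have : lam ^ (2 * (j + 1)) = lam ^ (2 * j) * lam ^ 2 := by rw [← pow_add]; ring_nf
    rw [this]; field_simp
  rw [e2] at h2
  have h3 : T * (2 * Q ^ 2) ≤ 2 * Q ^ 2 * lam ^ (2 * j) := by
    have k1 : T ≤ 1 := hTl.trans (by rw [div_le_one hl0]; exact hl)
    have k2 : (1 : ℝ) ≤ lam ^ (2 * j) := one_le_pow₀ hl
    have k3 : 0 ≤ 2 * Q ^ 2 := by positivity
    nlinarith
  linarith

/-- AP -/
theorem t_AP : Run7.h744.DD.S_AP := by
  intro C c ν Q hC hc hν hQ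
  -- the constants
  set A2 : ℝ := 2 * Q ^ 2 * (1 / ν + 1) with hA2
  set e : ℝ := Real.exp (A2 / ν) with he
  set D2 : ℝ := 2 * (Q * (2 / ν + 1)) * e with hD2
  set D3 : ℝ := A2 / ν * D2 ^ 2 + 2 * (Q * (2 / ν + 1) * D2) with hD3
  set D4 : ℝ := ((4 * Q * e) ^ 2 + 6 / ν * ((D2 ^ 2 + C ^ 2) * A2)) *
    Real.exp (6 / ν * A2 + 14 * c ^ 4 / ν ^ 3) with hD4
  set N : ℝ := Real.sqrt D4 with hN
  set D6 : ℝ := (2 * Q) ^ 2 / ν ^ 2 * D2 ^ 2 + 2 / ν * ((2 * Q + N) * D2) with hD6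
  have he0 : 0 < e := Real.exp_pos _
  have hA20 : 0 < A2 := by rw [hA2]; positivity
  have hD20 : 0 < D2 := by rw [hD2]; positivity
  have hD30 : 0 < D3 := by rw [hD3]; positivity
  have hD40 : 0 < D4 := by rw [hD4]; positivity
  have hN0 : 0 ≤ N := Real.sqrt_nonneg _
  have hD60 : 0 < D6 := by rw [hD6]; positivity
  refine ⟨D2 + D6, max 1 (2 * D6 * D3 / ν), by positivity, le_max_left _ _, ?_⟩
  intro H K _ _ _ _ _ _ W m lam J L L1 E E1 Fr U hJ hlam Bg1 τ v v1 z z1 hτ hτl S hv0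
  have hl : 1 ≤ lam := (le_max_left _ _).trans hlam
  have hl0 : 0 < lam := by linarith
  have hl2 : 2 * D6 * D3 / ν ≤ lam := (le_max_right _ _).trans hlam
  have hLc : Continuous L := continuous_iff_continuousAt.2 fun t => (Bg1.dL t).continuousAt
  have hEc : Continuous E := continuous_iff_continuousAt.2 fun t => (Bg1.dE t).continuousAt
  have hsub : ∀ t ∈ Icc 0 τ, t ∈ Icc 0 (1 / lam) := fun t ht => ⟨ht.1, ht.2.trans hτl⟩
  have hwc := wt_cont ν lam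
  set a : ℝ → ℝ := fun t => Q * (lam * wt ν lam t + 1) with ha
  set b : ℝ → ℝ := fun t => Q * (lam ^ 3 * wt ν lam t + 1) with hb
  have hac : Continuous a := by rw [ha]; fun_prop
  have hbc : Continuous b := by rw [hb]; fun_prop
  have hLa : ∀ t ∈ Icc 0 τ, ‖L t‖ ≤ a t := fun t ht => Bg1.bL t (hsub t ht)
  have hEa : ∀ t ∈ Icc 0 τ, ‖E t‖ ≤ a t := fun t ht => Bg1.bE t (hsub t ht)
  have hLb : ∀ t ∈ Icc 0 τ, ‖L1 t‖ ≤ b t := fun t ht => Bg1.bL1 t (hsub t ht)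
  have hEb : ∀ t ∈ Icc 0 τ, ‖E1 t‖ ≤ b t := fun t ht => Bg1.bE1 t (hsub t ht)
  have ha1 : ∀ t, 0 ≤ t → a t ≤ 2 * Q * lam := by
    intro t ht
    have h1 := wt_le_one (lam := lam) hν ht
    have h2 : lam * wt ν lam t ≤ lam * 1 := mul_le_mul_of_nonneg_left h1 hl0.le
    have h3 : lam * wt ν lam t + 1 ≤ 2 * lam := by linarith
    have h4 := mul_le_mul_of_nonneg_left h3 hQ.le
    rw [ha]
    simp only
    linarith
  have ia2 : ∀ T, 0 ≤ T → T ≤ 1 / lam → ∫ t in (0 : ℝ)..T, a t ^ 2 ≤ A2 := by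
    intro T h1 h2
    have := int_a2 (Q := Q) 0 hν hl h1 h2
    simpa [ha, hA2] using this
  have ib2 : ∫ t in (0 : ℝ)..τ, b t ^ 2 ≤ A2 * lam ^ 4 := by
    have := int_a2 (Q := Q) 2 hν hl hτ.le hτl
    simpa [hb, hA2] using this
  have hτI : τ ∈ Icc 0 τ := ⟨hτ.le, le_rfl⟩
  obtain ⟨s1, s2⟩ := sup_bd hJ hν hLc hEc S hv0 hac hLa hEa hτI (int_a hν hl hQ hτl)
    (ia2 τ hτ.le hτl)
  have e1 : 2 * (Q * (2 / ν + 1) / lam) * Real.exp (A2 / ν) = D2 / lam := by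
    rw [hD2, he]; ring
  rw [e1] at s1 s2
  -- the initial slope
  have hB : ∀ h ∈ Ioc 0 τ, ‖v h - v 0‖ ≤ (4 * Q * e * lam) * h := by
    intro h hh
    have hhI : h ∈ Icc 0 τ := Ioc_subset_Icc_self hh
    have h1 : ∫ t in (0 : ℝ)..h, a t ≤ 2 * Q * lam * h := by
      have h2 : ∫ t in (0 : ℝ)..h, a t ≤ ∫ t in (0 : ℝ)..h, 2 * Q * lam := by
        refine intervalIntegral.integral_mono_on hh.1.le (hac.intervalIntegrable _ _)
          intervalIntegrable_const fun t ht => ha1 t ht.1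
      rw [intervalIntegral.integral_const, smul_eq_mul, sub_zero] at h2
      linarith
    have h3 := (sup_bd hJ hν hLc hEc S hv0 hac hLa hEa hhI h1
      (ia2 h hh.1.le (hh.2.trans hτl))).1 h ⟨hh.1.le, le_rfl⟩
    rw [hv0, sub_zero]
    refine h3.trans (le_of_eq ?_)
    rw [he]; ring
  -- the bound on an interval where the integral is at most one
  have key : ∀ T ∈ Ioc 0 τ, ∫ s in (0 : ℝ)..T, ‖z s‖ ^ 4 ≤ 1 →
      (∀ t ∈ Icc 0 T, ‖z t‖ ^ 2 ≤ D6 * lam) ∧ ∫ s in (0 : ℝ)..T, ‖z s‖ ^ 4 ≤ 1 / 2 := by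
    intro T hT hz4
    have h1 := v1_bd Fr U hJ hν hτ Bg1.dL Bg1.cL Bg1.dE Bg1.cE S hac hbc hLa hLb hEb hB s1
      (ia2 τ hτ.le hτl) ib2 hT hz4
    have h2 : (4 * Q * e * lam) ^ 2 + 6 / ν * (((D2 / lam) ^ 2 + C ^ 2) * (A2 * lam ^ 4)) ≤
        ((4 * Q * e) ^ 2 + 6 / ν * ((D2 ^ 2 + C ^ 2) * A2)) * lam ^ 4 := by
      have k1 : (D2 / lam) ^ 2 ≤ D2 ^ 2 := by
        refine pow_le_pow_left₀ (by positivity) (div_le_self hD20.le hl) 2
      have k2 : lam ^ 2 ≤ lam ^ 4 := pow_le_pow_right₀ hl (by norm_num)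
      have k3 : (4 * Q * e * lam) ^ 2 ≤ (4 * Q * e) ^ 2 * lam ^ 4 := by
        rw [mul_pow]; exact mul_le_mul_of_nonneg_left k2 (sq_nonneg _)
      have k4 : 6 / ν * (((D2 / lam) ^ 2 + C ^ 2) * (A2 * lam ^ 4)) ≤
          6 / ν * ((D2 ^ 2 + C ^ 2) * (A2 * lam ^ 4)) := by
        gcongr
      have k5 : ((4 * Q * e) ^ 2 + 6 / ν * ((D2 ^ 2 + C ^ 2) * A2)) * lam ^ 4 =
          (4 * Q * e) ^ 2 * lam ^ 4 + 6 / ν * ((D2 ^ 2 + C ^ 2) * (A2 * lam ^ 4)) := by ring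
      rw [k5]
      linarith
    have h3 : ∀ᵐ t ∂(volume.restrict (Ioc 0 T)), ‖v1 t‖ ≤ N * lam ^ 2 := by
      filter_upwards [h1] with t ht
      have k1 : ‖v1 t‖ ^ 2 ≤ D4 * lam ^ 4 := by
        refine ht.trans ?_
        have := mul_le_mul_of_nonneg_right h2 (Real.exp_pos (6 / ν * A2 + 14 * c ^ 4 / ν ^ 3)).le
        refine this.trans (le_of_eq ?_)
        rw [hD4]; ring
      have k2 : (N * lam ^ 2) ^ 2 = D4 * lam ^ 4 := by
        rw [mul_pow, hN, Real.sq_sqrt hD40.le]; ring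
      rw [← k2] at k1
      exact le_of_sq_le_sq k1 (by positivity)
    have h4 := z_bd Fr hJ hν hτ hLc hEc S (a0 := 2 * Q * lam)
      (fun t ht => (hLa t ht).trans (ha1 t ht.1)) (fun t ht => (hEa t ht).trans (ha1 t ht.1))
      s1 hT h3
    have h5 : (2 * Q * lam) ^ 2 / ν ^ 2 * (D2 / lam) ^ 2 +
        2 / ν * ((2 * Q * lam + N * lam ^ 2) * (D2 / lam)) ≤ D6 * lam := by
      have k1 : (2 * Q * lam) ^ 2 / ν ^ 2 * (D2 / lam) ^ 2 = (2 * Q) ^ 2 / ν ^ 2 * D2 ^ 2 := by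
        field_simp
      have k2 : 2 / ν * ((2 * Q * lam + N * lam ^ 2) * (D2 / lam)) =
          2 / ν * ((2 * Q + N * lam) * D2) := by field_simp
      have k3 : (2 * Q) ^ 2 / ν ^ 2 * D2 ^ 2 ≤ (2 * Q) ^ 2 / ν ^ 2 * D2 ^ 2 * lam :=
        le_mul_of_one_le_right (by positivity) hl
      have k4 : 2 / ν * ((2 * Q + N * lam) * D2) ≤ 2 / ν * ((2 * Q + N) * D2) * lam := by
        have : 2 / ν * ((2 * Q + N) * D2) * lam = 2 / ν * ((2 * Q * lam + N * lam) * D2) := by ring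
        rw [this]
        have : 2 * Q ≤ 2 * Q * lam := le_mul_of_one_le_right (by positivity) hl
        gcongr
      rw [k1, k2, hD6, add_mul]
      linarith
    have h6 : ∀ t ∈ Icc 0 T, ‖z t‖ ^ 2 ≤ D6 * lam := fun t ht => (h4 t ht).trans h5
    refine ⟨h6, ?_⟩
    have hzc : ContinuousOn z (Icc 0 τ) := prim_cont S.z1m S.pz
    have i4 : IntervalIntegrable (fun s => ‖z s‖ ^ 4) volume 0 T :=
      ii_of_cont (hzc.norm.pow 4) le_rfl hT.1.le hT.2
    have i2 : IntervalIntegrable (fun s => D6 * lam * ‖z s‖ ^ 2) volume 0 T :=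
      ii_of_cont (continuousOn_const.mul (hzc.norm.pow 2)) le_rfl hT.1.le hT.2
    have h7 : ∫ s in (0 : ℝ)..T, ‖z s‖ ^ 4 ≤ ∫ s in (0 : ℝ)..T, D6 * lam * ‖z s‖ ^ 2 := by
      refine intervalIntegral.integral_mono_on hT.1.le i4 i2 fun s hs => ?_
      have := mul_le_mul_of_nonneg_right (h6 s hs) (sq_nonneg ‖z s‖)
      calc ‖z s‖ ^ 4 = ‖z s‖ ^ 2 * ‖z s‖ ^ 2 := by ring
        _ ≤ _ := this
    rw [intervalIntegral.integral_const_mul] at h7
    have h8 : ∫ s in (0 : ℝ)..T, ‖z s‖ ^ 2 ≤ ∫ s in (0 : ℝ)..τ, ‖z s‖ ^ 2 :=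
      ii_mono (hzc.norm.pow 2) (fun s _ => sq_nonneg _) (Ioc_subset_Icc_self hT)
    have h9 : A2 / ν * (D2 / lam) ^ 2 + 2 * (Q * (2 / ν + 1) / lam * (D2 / lam)) =
        D3 / lam ^ 2 := by rw [hD3]; ring
    rw [h9] at s2
    have h10 : ∫ s in (0 : ℝ)..τ, ‖z s‖ ^ 2 ≤ D3 / lam ^ 2 / ν := by
      rw [le_div_iff₀ hν]; linarith
    have h11 := mul_le_mul_of_nonneg_left (h8.trans h10) (by positivity : 0 ≤ D6 * lam)
    have h12 : D6 * lam * (D3 / lam ^ 2 / ν) ≤ 1 / 2 := by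
      have k1 : D6 * lam * (D3 / lam ^ 2 / ν) = (2 * D6 * D3 / ν) / lam / 2 := by field_simp
      rw [k1]
      have k2 : (2 * D6 * D3 / ν) / lam ≤ 1 := by rw [div_le_one hl0]; exact hl2
      linarith
    linarith
  -- continuity
  have hzc : ContinuousOn z (Icc 0 τ) := prim_cont S.z1m S.pz
  have hGc : ContinuousOn (fun t => ∫ s in (0 : ℝ)..t, ‖z s‖ ^ 4) (Icc 0 τ) :=
    prim_continuousOn hτ.le (hzc.norm.pow 4)
  have hG : ∫ s in (0 : ℝ)..τ, ‖z s‖ ^ 4 ≤ 1 := by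
    by_contra hcon
    push Not at hcon
    obtain ⟨T, hT, hT1⟩ := intermediate_value_Icc hτ.le hGc
      (show (1 : ℝ) ∈ Icc (∫ s in (0 : ℝ)..(0 : ℝ), ‖z s‖ ^ 4) (∫ s in (0 : ℝ)..τ, ‖z s‖ ^ 4) by
        rw [intervalIntegral.integral_same]; exact ⟨by norm_num, hcon.le⟩)
    simp only at hT1
    have hT0 : 0 < T := by
      rcases hT.1.eq_or_lt with h | h
      · rw [← h, intervalIntegral.integral_same] at hT1; norm_num at hT1
      · exact h
    have := (key T ⟨hT0, hT.2⟩ hT1.le).2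
    rw [hT1] at this
    norm_num at this
  have hfin := (key τ ⟨hτ, le_rfl⟩ hG).1
  intro t ht
  refine ⟨(s1 t ht).trans ?_, (hfin t ht).trans ?_⟩
  · exact div_le_div_of_nonneg_right (by linarith) hl0.le
  · exact mul_le_mul_of_nonneg_right (by linarith) hl0.le

end Run7.h888.DD
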