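import Pool.Agent.Run7.h744.DD.Iface
import Pool.Agent.W790.TQ.Est2
import Pool.Agent.W503.TQ.Base

/-! Piece AP, part a: real analysis, energy and sup bound. -/

set_option autoImplicit false
set_option linter.unusedSectionVars false

open MeasureTheory Set Filter Topology Metric
open scoped InnerProductSpace NNReal ENNReal

namespace Run7.h888.DD

open H772R2.NSR (Frame prim_cont memLp_ii ae_deriv_of_prim prim_shift hasDerivAt_prim
  prim_continuousOn ii_of_cont ii_mono)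
open H772R2.NSG (St by_parts ii_of_int int_inner mem_cont)
open Pool.Agent.W795.TQ (Str Univ FH)
open Run7.h744.DD (IsJ Bg wt)

/-- The integral form of the Gronwall inequality. -/
theorem gI {T K0 : ℝ} {f β : ℝ → ℝ} (hf : ContinuousOn f (Icc 0 T))
    (hβ : ContinuousOn β (Icc 0 T)) (hβ0 : ∀ t ∈ Icc 0 T, 0 ≤ β t)
    (h : ∀ t ∈ Icc 0 T, f t ≤ K0 + ∫ s in (0 : ℝ)..t, β s * f s) (hK : 0 ≤ K0) :
    ∀ t ∈ Icc 0 T, f t ≤ K0 * Real.exp (∫ s in (0 : ℝ)..T, β s) := by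
  intro t ht
  have hT : 0 ≤ T := ht.1.trans ht.2
  set B : ℝ → ℝ := fun t => ∫ s in (0 : ℝ)..t, β s with hB
  set q : ℝ → ℝ := fun t => K0 + ∫ s in (0 : ℝ)..t, β s * f s with hq
  have hbf : ContinuousOn (fun s => β s * f s) (Icc 0 T) := hβ.mul hf
  have hBc : ContinuousOn B (Icc 0 T) := prim_continuousOn hT hβ
  have hqc : ContinuousOn q (Icc 0 T) := continuousOn_const.add (prim_continuousOn hT hbf)
  have hanti : AntitoneOn (fun s => Real.exp (-B s) * q s) (Icc 0 T) := by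
    refine antitoneOn_of_deriv_nonpos (convex_Icc 0 T)
      ((Real.continuous_exp.comp_continuousOn hBc.neg).mul hqc) ?_ ?_
    · intro s hs
      rw [interior_Icc] at hs
      have h1 : HasDerivAt B (β s) s := hasDerivAt_prim hβ hs
      have h2 : HasDerivAt q (β s * f s) s := (hasDerivAt_prim hbf hs).const_add K0
      exact (h1.neg.exp.mul h2).differentiableAt.differentiableWithinAt
    · intro s hs
      rw [interior_Icc] at hs
      have h1 : HasDerivAt B (β s) s := hasDerivAt_prim hβ hs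
      have h2 : HasDerivAt q (β s * f s) s := (hasDerivAt_prim hbf hs).const_add K0
      have h3 := (h1.neg.exp.mul h2).deriv
      have h4 : deriv (fun s => Real.exp (-B s) * q s) s =
          Real.exp (-B s) * -β s * q s + Real.exp (-B s) * (β s * f s) := h3
      rw [h4]
      have hs' := Ioo_subset_Icc_self hs
      have h5 := h s hs'
      have h6 : β s * f s ≤ β s * q s := mul_le_mul_of_nonneg_left h5 (hβ0 s hs')
      have h7 : Real.exp (-B s) * (β s * f s) ≤ Real.exp (-B s) * (β s * q s) :=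
        mul_le_mul_of_nonneg_left h6 (Real.exp_pos _).le
      linarith
  have h0 : (0 : ℝ) ∈ Icc 0 T := ⟨le_rfl, hT⟩
  have h1 := hanti h0 ht ht.1
  have hB0 : B 0 = 0 := by simp [hB]
  have hq0 : q 0 = K0 := by simp [hq]
  simp only [hB0, hq0, neg_zero, Real.exp_zero, one_mul] at h1
  have h2 : q t ≤ K0 * Real.exp (B t) := by
    have e1 : Real.exp (B t) * (Real.exp (-B t) * q t) = q t := by
      rw [← mul_assoc, ← Real.exp_add, add_neg_cancel, Real.exp_zero, one_mul]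
    have := mul_le_mul_of_nonneg_left h1 (Real.exp_pos (B t)).le
    rw [e1] at this
    linarith
  have h3 : B t ≤ B T := ii_mono hβ hβ0 ht
  calc f t ≤ q t := h t ht
    _ ≤ K0 * Real.exp (B t) := h2
    _ ≤ K0 * Real.exp (B T) := mul_le_mul_of_nonneg_left (Real.exp_le_exp.2 h3) hK

section eqn

variable {H K : Type} [NormedAddCommGroup H] [InnerProductSpace ℝ H] [CompleteSpace H]
  [NormedAddCommGroup K] [InnerProductSpace ℝ K] [CompleteSpace K]
  {W : Submodule ℝ (H × K)} {m : H → K} {C c ν τ : ℝ} {J : H →L[ℝ] K}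
  {L L1 : ℝ → H →L[ℝ] K} {E E1 : ℝ → H} {v v1 : ℝ → H} {z z1 : ℝ → K}

/-- the energy inequality -/
theorem en_ineq (hJ : IsJ W C J) (hν : 0 < ν) (hL : Continuous L) (hE : Continuous E)
    (S : Str W m ν τ (fun t => L t (v t) + J (E t)) v v1 z z1) (hv0 : v 0 = 0) {a : ℝ → ℝ}
    (ha : Continuous a) (hLa : ∀ t ∈ Icc 0 τ, ‖L t‖ ≤ a t) (hEa : ∀ t ∈ Icc 0 τ, ‖E t‖ ≤ a t)
    {t : ℝ} (ht : t ∈ Icc 0 τ) :
    ‖v t‖ ^ 2 + ν * (∫ s in (0 : ℝ)..t, ‖z s‖ ^ 2) ≤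
      ∫ s in (0 : ℝ)..t, (a s ^ 2 / ν * ‖v s‖ ^ 2 + 2 * (a s * ‖v s‖)) := by
  have hzc : ContinuousOn z (Icc 0 τ) := prim_cont S.z1m S.pz
  have hvc : ContinuousOn v (Icc 0 τ) := prim_cont S.u1m S.pu
  have hFc : ContinuousOn (fun t => L t (v t) + J (E t)) (Icc 0 τ) :=
    (hL.continuousOn.clm_apply hvc).add (J.continuous.comp hE).continuousOn
  have he := S.energy t ht
  rw [hv0, norm_zero] at he
  have i1 : IntervalIntegrable (fun s => ⟪L s (v s) + J (E s), z s⟫_ℝ) volume 0 t :=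
    ii_of_cont (hFc.inner hzc) le_rfl ht.1 ht.2
  have i2 : IntervalIntegrable (fun s => ν / 2 * ‖z s‖ ^ 2) volume 0 t :=
    ii_of_cont (continuousOn_const.mul (hzc.norm.pow 2)) le_rfl ht.1 ht.2
  have i3 : IntervalIntegrable (fun s => 1 / 2 * (a s ^ 2 / ν * ‖v s‖ ^ 2 + 2 * (a s * ‖v s‖)))
      volume 0 t := by
    refine ii_of_cont (T := τ) ?_ le_rfl ht.1 ht.2
    exact continuousOn_const.mul ((((ha.continuousOn.pow 2).div_const ν).mul (hvc.norm.pow 2)).add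
      (continuousOn_const.mul (ha.continuousOn.mul hvc.norm)))
  have h1 : ∫ s in (0 : ℝ)..t, ⟪L s (v s) + J (E s), z s⟫_ℝ ≤
      ∫ s in (0 : ℝ)..t, (ν / 2 * ‖z s‖ ^ 2 +
        1 / 2 * (a s ^ 2 / ν * ‖v s‖ ^ 2 + 2 * (a s * ‖v s‖))) := by
    refine intervalIntegral.integral_mono_on ht.1 i1 (i2.add i3) fun s hs => ?_
    have hs' : s ∈ Icc 0 τ := ⟨hs.1, hs.2.trans ht.2⟩
    have k0 : 0 ≤ a s := (norm_nonneg _).trans (hLa s hs')
    have k1 : ⟪L s (v s), z s⟫_ℝ ≤ a s * ‖v s‖ * ‖z s‖ := by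
      refine (real_inner_le_norm _ _).trans ?_
      refine mul_le_mul_of_nonneg_right ?_ (norm_nonneg _)
      exact ((L s).le_opNorm _).trans (mul_le_mul_of_nonneg_right (hLa s hs') (norm_nonneg _))
    have k2 : ⟪J (E s), z s⟫_ℝ = ⟪E s, v s⟫_ℝ := hJ.rep (E s) _ (S.mem s hs')
    have k3 : ⟪E s, v s⟫_ℝ ≤ a s * ‖v s‖ :=
      (real_inner_le_norm _ _).trans (mul_le_mul_of_nonneg_right (hEa s hs') (norm_nonneg _))
    have k4 : a s * ‖v s‖ * ‖z s‖ ≤ ν / 2 * ‖z s‖ ^ 2 + 1 / 2 * (a s ^ 2 / ν * ‖v s‖ ^ 2) := by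
      have e1 : ν / 2 * ‖z s‖ ^ 2 + 1 / 2 * (a s ^ 2 / ν * ‖v s‖ ^ 2) - a s * ‖v s‖ * ‖z s‖ =
          1 / (2 * ν) * (ν * ‖z s‖ - a s * ‖v s‖) ^ 2 := by
        field_simp; ring
      have : 0 ≤ 1 / (2 * ν) * (ν * ‖z s‖ - a s * ‖v s‖) ^ 2 := by positivity
      linarith
    rw [inner_add_left, k2]
    linarith
  rw [intervalIntegral.integral_add i2 i3, intervalIntegral.integral_const_mul,
    intervalIntegral.integral_const_mul] at h1
  have e2 : (0 : ℝ) ^ 2 / 2 = 0 := by norm_num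
  rw [e2] at he
  linarith

/-- the sup bound -/
theorem sup_bd (hJ : IsJ W C J) (hν : 0 < ν) (hL : Continuous L) (hE : Continuous E)
    (S : Str W m ν τ (fun t => L t (v t) + J (E t)) v v1 z z1) (hv0 : v 0 = 0) {a : ℝ → ℝ}
    (ha : Continuous a) (hLa : ∀ t ∈ Icc 0 τ, ‖L t‖ ≤ a t) (hEa : ∀ t ∈ Icc 0 τ, ‖E t‖ ≤ a t)
    {T A A2 : ℝ} (hT : T ∈ Icc 0 τ) (hA : ∫ s in (0 : ℝ)..T, a s ≤ A)
    (hA2 : ∫ s in (0 : ℝ)..T, a s ^ 2 ≤ A2) :
    (∀ t ∈ Icc 0 T, ‖v t‖ ≤ 2 * A * Real.exp (A2 / ν)) ∧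
      ν * (∫ s in (0 : ℝ)..T, ‖z s‖ ^ 2) ≤ A2 / ν * (2 * A * Real.exp (A2 / ν)) ^ 2 +
        2 * (A * (2 * A * Real.exp (A2 / ν))) := by
  have hvc : ContinuousOn v (Icc 0 τ) := prim_cont S.u1m S.pu
  have hvT : ContinuousOn v (Icc 0 T) := hvc.mono (Icc_subset_Icc_right hT.2)
  have ha0 : ∀ t ∈ Icc 0 τ, 0 ≤ a t := fun t ht => (norm_nonneg _).trans (hLa t ht)
  have ha0' : ∀ t ∈ Icc 0 T, 0 ≤ a t := fun t ht => ha0 t ⟨ht.1, ht.2.trans hT.2⟩
  obtain ⟨x, hx, hmax⟩ := isCompact_Icc.exists_isMaxOn (nonempty_Icc.2 hT.1) hvT.norm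
  have hmax' : ∀ t ∈ Icc 0 T, ‖v t‖ ≤ ‖v x‖ := fun t ht => hmax ht
  have hac : ∀ t, IntervalIntegrable a volume 0 t := fun t => ha.intervalIntegrable _ _
  have hA0 : 0 ≤ A := le_trans (intervalIntegral.integral_nonneg hT.1 ha0') hA
  have hA20 : 0 ≤ A2 := le_trans (intervalIntegral.integral_nonneg hT.1
    fun t _ => sq_nonneg _) hA2
  -- the pointwise bound
  have key : ∀ t ∈ Icc 0 T, ‖v t‖ ^ 2 + ν * (∫ s in (0 : ℝ)..t, ‖z s‖ ^ 2) ≤
      2 * (A * ‖v x‖) + ∫ s in (0 : ℝ)..t, a s ^ 2 / ν * ‖v s‖ ^ 2 := by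
    intro t ht
    have h1 := en_ineq hJ hν hL hE S hv0 ha hLa hEa (t := t) ⟨ht.1, ht.2.trans hT.2⟩
    have i1 : IntervalIntegrable (fun s => a s ^ 2 / ν * ‖v s‖ ^ 2) volume 0 t :=
      ii_of_cont (T := T) (((ha.continuousOn.pow 2).div_const ν).mul (hvT.norm.pow 2))
        le_rfl ht.1 ht.2
    have i2 : IntervalIntegrable (fun s => 2 * (a s * ‖v s‖)) volume 0 t :=
      ii_of_cont (T := T) (continuousOn_const.mul (ha.continuousOn.mul hvT.norm))
        le_rfl ht.1 ht.2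
    rw [intervalIntegral.integral_add i1 i2] at h1
    have i3 : IntervalIntegrable (fun s => 2 * (a s * ‖v x‖)) volume 0 t :=
      ((hac t).mul_const _).const_mul 2
    have h2 : ∫ s in (0 : ℝ)..t, 2 * (a s * ‖v s‖) ≤ ∫ s in (0 : ℝ)..t, 2 * (a s * ‖v x‖) := by
      refine intervalIntegral.integral_mono_on ht.1 i2 i3 fun s hs => ?_
      have hs' : s ∈ Icc 0 T := ⟨hs.1, hs.2.trans ht.2⟩
      have := mul_le_mul_of_nonneg_left (hmax' s hs') (ha0' s hs')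
      linarith
    rw [intervalIntegral.integral_const_mul, intervalIntegral.integral_const_mul,
      intervalIntegral.integral_mul_const] at h2
    have h3 : ∫ s in (0 : ℝ)..t, a s ≤ ∫ s in (0 : ℝ)..T, a s :=
      ii_mono ha.continuousOn ha0' ht
    have h4 : (∫ s in (0 : ℝ)..t, a s) * ‖v x‖ ≤ A * ‖v x‖ :=
      mul_le_mul_of_nonneg_right (h3.trans hA) (norm_nonneg _)
    rw [intervalIntegral.integral_const_mul] at h1
    linarith
  have hz0 : ∀ t ∈ Icc 0 T, 0 ≤ ν * (∫ s in (0 : ℝ)..t, ‖z s‖ ^ 2) := fun t ht =>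
    mul_nonneg hν.le (intervalIntegral.integral_nonneg ht.1 fun s _ => sq_nonneg _)
  have hg := gI (T := T) (K0 := 2 * (A * ‖v x‖)) (f := fun t => ‖v t‖ ^ 2)
    (β := fun s => a s ^ 2 / ν) (hvT.norm.pow 2) ((ha.continuousOn.pow 2).div_const ν)
    (fun t _ => by positivity) (fun t ht => by
      have := key t ht
      have := hz0 t ht
      linarith) (by positivity) x hx
  have hB : ∫ s in (0 : ℝ)..T, a s ^ 2 / ν ≤ A2 / ν := by
    rw [intervalIntegral.integral_div]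
    exact div_le_div_of_nonneg_right hA2 hν.le
  have hx0 : 0 ≤ ‖v x‖ := norm_nonneg _
  have hg2 : ‖v x‖ ^ 2 ≤ (2 * A * Real.exp (A2 / ν)) * ‖v x‖ := by
    refine hg.trans ?_
    have := mul_le_mul_of_nonneg_left (Real.exp_le_exp.2 hB)
      (by positivity : 0 ≤ 2 * (A * ‖v x‖))
    linarith
  have hS : ‖v x‖ ≤ 2 * A * Real.exp (A2 / ν) := by
    rcases hx0.eq_or_lt with h | h
    · rw [← h]; positivity
    · rw [sq] at hg2
      exact le_of_mul_le_mul_right hg2 h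
  refine ⟨fun t ht => (hmax' t ht).trans hS, ?_⟩
  have k1 := key T ⟨hT.1, le_rfl⟩
  have i1 : IntervalIntegrable (fun s => a s ^ 2 / ν * ‖v s‖ ^ 2) volume 0 T :=
      ii_of_cont (T := T) (((ha.continuousOn.pow 2).div_const ν).mul (hvT.norm.pow 2))
        le_rfl hT.1 le_rfl
  have i2 : IntervalIntegrable (fun s => a s ^ 2 / ν * (2 * A * Real.exp (A2 / ν)) ^ 2)
      volume 0 T := ((ha.pow 2).div_const ν |>.intervalIntegrable _ _).mul_const _
  have k2 : ∫ s in (0 : ℝ)..T, a s ^ 2 / ν * ‖v s‖ ^ 2 ≤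
      ∫ s in (0 : ℝ)..T, a s ^ 2 / ν * (2 * A * Real.exp (A2 / ν)) ^ 2 := by
    refine intervalIntegral.integral_mono_on hT.1 i1 i2 fun s hs => ?_
    have := (hmax' s hs).trans hS
    gcongr
  rw [intervalIntegral.integral_mul_const] at k2
  have k3 : (∫ s in (0 : ℝ)..T, a s ^ 2 / ν) * (2 * A * Real.exp (A2 / ν)) ^ 2 ≤
      A2 / ν * (2 * A * Real.exp (A2 / ν)) ^ 2 := mul_le_mul_of_nonneg_right hB (sq_nonneg _)
  have k4 : A * ‖v x‖ ≤ A * (2 * A * Real.exp (A2 / ν)) := mul_le_mul_of_nonneg_left hS hA0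
  have k5 : 0 ≤ ‖v T‖ ^ 2 := sq_nonneg _
  linarith

end eqn

end Run7.h888.DD
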