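import Pool.Agent.Run7.h888.DD.APa

/-! Piece AP, part b: the force is a primitive; the inequality for the time derivative. -/

set_option autoImplicit false
set_option linter.unusedSectionVars false

open MeasureTheory Set Filter Topology Metric
open scoped InnerProductSpace NNReal ENNReal

namespace Run7.h888.DD

open H772R2.NSR (Frame prim_cont memLp_ii ae_deriv_of_prim prim_shift hasDerivAt_prim
  prim_continuousOn ii_of_cont ii_mono)
open H772R2.NSG (St by_parts ii_of_int int_inner mem_cont)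
open Pool.Agent.W795.TQ (Str Univ FH)
open Run7.h744.DD (IsJ Bg wt)

variable {H K : Type} [NormedAddCommGroup H] [InnerProductSpace ℝ H] [CompleteSpace H]
  [NormedAddCommGroup K] [InnerProductSpace ℝ K] [CompleteSpace K]

/-- the adjoint applied to a vector, linear in the operator -/
noncomputable def adjA (k : K) : (H →L[ℝ] K) →L[ℝ] H :=
  LinearMap.mkContinuous
    { toFun := fun A => ContinuousLinearMap.adjoint A k
      map_add' := fun A B => by simp
      map_smul' := fun r A => by simp } ‖k‖ (fun A => by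
        show ‖ContinuousLinearMap.adjoint A k‖ ≤ ‖k‖ * ‖A‖
        refine ((ContinuousLinearMap.adjoint A).le_opNorm k).trans ?_
        rw [LinearIsometryEquiv.norm_map, mul_comm])

theorem adjA_inner (k : K) (A : H →L[ℝ] K) (x : H) : ⟪x, adjA k A⟫_ℝ = ⟪A x, k⟫_ℝ :=
  ContinuousLinearMap.adjoint_inner_right A x k

theorem mem_clm {T : ℝ} {L : ℝ → H →L[ℝ] K} (hL : Continuous L) {v1 : ℝ → H}
    (hv1 : MemLp v1 2 (volume.restrict (Ioc 0 T))) :
    MemLp (fun s => L s (v1 s)) 2 (volume.restrict (Ioc 0 T)) := by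
  obtain ⟨B, hB⟩ := (isCompact_Icc.image_of_continuousOn
    (hL.continuousOn (s := Icc 0 T))).isBounded.exists_norm_le
  refine hv1.of_le_mul (c := B) ?_ ?_
  · exact isBoundedBilinearMap_apply.continuous.comp_aestronglyMeasurable₂
      hL.aestronglyMeasurable hv1.aestronglyMeasurable
  · filter_upwards [ae_restrict_mem measurableSet_Ioc] with s hs
    exact ((L s).le_opNorm _).trans (mul_le_mul_of_nonneg_right
      (hB _ ⟨s, Ioc_subset_Icc_self hs, rfl⟩) (norm_nonneg _))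

/-- the product rule for `L t (v t)` -/
theorem prod_clm {T : ℝ} {L L1 : ℝ → H →L[ℝ] K} (dL : ∀ t, HasDerivAt L (L1 t) t)
    (cL : Continuous L1) {v v1 : ℝ → H} (hv1 : MemLp v1 2 (volume.restrict (Ioc 0 T)))
    (hv : ∀ a b, 0 ≤ a → a ≤ b → b ≤ T → v b - v a = ∫ s in a..b, v1 s)
    {a b : ℝ} (ha : 0 ≤ a) (hab : a ≤ b) (hb : b ≤ T) :
    L b (v b) - L a (v a) = ∫ s in a..b, (L1 s (v s) + L s (v1 s)) := by
  have hLc : Continuous L := continuous_iff_continuousAt.2 fun t => (dL t).continuousAt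
  have hvc : ContinuousOn v (Icc 0 T) := prim_cont hv1 hv
  have m1 : MemLp (fun s => L1 s (v s)) 2 (volume.restrict (Ioc 0 T)) := mem_clm cL (mem_cont hvc)
  have m2 : MemLp (fun s => L s (v1 s)) 2 (volume.restrict (Ioc 0 T)) := mem_clm hLc hv1
  have hsum : Integrable (fun s => L1 s (v s) + L s (v1 s)) (volume.restrict (Ioc 0 T)) :=
    (m1.integrable (by norm_num)).add (m2.integrable (by norm_num))
  refine ext_inner_right ℝ fun k => ?_
  have dg : ∀ t, HasDerivAt (fun t => adjA k (L t)) (adjA k (L1 t)) t := fun t =>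
    (adjA k).hasFDerivAt.comp_hasDerivAt t (dL t)
  have cg : Continuous fun t => adjA k (L1 t) := (adjA k).continuous.comp cL
  have hg : ∀ a b, 0 ≤ a → a ≤ b → b ≤ T → adjA k (L b) - adjA k (L a) =
      ∫ s in a..b, adjA k (L1 s) := by
    intro a b _ _ _
    rw [intervalIntegral.integral_eq_sub_of_hasDerivAt (fun t _ => dg t)
      (cg.intervalIntegrable _ _)]
  have h1 := Pool.Agent.W503.TQ.prod_rule hv1 (mem_cont cg.continuousOn) hv hg ha hab hb
  simp only [adjA_inner] at h1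
  have i1 : IntervalIntegrable (fun s => ⟪L s (v1 s), k⟫_ℝ) volume a b :=
    ii_of_int ((m2.integrable (by norm_num)).inner_const k) ha hab hb
  have i2 : IntervalIntegrable (fun s => ⟪L1 s (v s), k⟫_ℝ) volume a b :=
    ii_of_int ((m1.integrable (by norm_num)).inner_const k) ha hab hb
  have h2 : ⟪∫ s in a..b, (L1 s (v s) + L s (v1 s)), k⟫_ℝ =
      ∫ s in a..b, ⟪L1 s (v s) + L s (v1 s), k⟫_ℝ := by
    rw [intervalIntegral.integral_of_le hab, intervalIntegral.integral_of_le hab, real_inner_comm]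
    have hi : IntegrableOn (fun s => L1 s (v s) + L s (v1 s)) (Ioc a b) volume :=
      hsum.mono_measure (Measure.restrict_mono (Ioc_subset_Ioc ha hb) le_rfl)
    have := integral_inner (𝕜 := ℝ) hi k
    rw [← this]
    exact integral_congr_ae (Eventually.of_forall fun s => real_inner_comm _ _)
  have h3 : ∫ s in a..b, ⟪L1 s (v s) + L s (v1 s), k⟫_ℝ =
      (∫ s in a..b, ⟪L1 s (v s), k⟫_ℝ) + ∫ s in a..b, ⟪L s (v1 s), k⟫_ℝ := by
    rw [← intervalIntegral.integral_add i2 i1]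
    exact intervalIntegral.integral_congr fun s _ => inner_add_left _ _ _
  rw [h2, h3, inner_sub_left]
  linarith

variable {W : Submodule ℝ (H × K)} {m : H → K} {C c ν τ : ℝ} {J : H →L[ℝ] K}
  {L L1 : ℝ → H →L[ℝ] K} {E E1 : ℝ → H} {v v1 : ℝ → H} {z z1 : ℝ → K}

/-- the force is a primitive -/
theorem force_FH (dL : ∀ t, HasDerivAt L (L1 t) t) (cL : Continuous L1)
    (dE : ∀ t, HasDerivAt E (E1 t) t) (cE : Continuous E1)
    (S : Str W m ν τ (fun t => L t (v t) + J (E t)) v v1 z z1) :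
    FH τ (fun t => L t (v t) + J (E t)) (fun s => (L1 s (v s) + L s (v1 s)) + J (E1 s)) := by
  have hLc : Continuous L := continuous_iff_continuousAt.2 fun t => (dL t).continuousAt
  have hvc : ContinuousOn v (Icc 0 τ) := prim_cont S.u1m S.pu
  have m1 : MemLp (fun s => L1 s (v s)) 2 (volume.restrict (Ioc 0 τ)) := mem_clm cL (mem_cont hvc)
  have m2 : MemLp (fun s => L s (v1 s)) 2 (volume.restrict (Ioc 0 τ)) := mem_clm hLc S.u1m
  have hJc : Continuous fun s => J (E1 s) := J.continuous.comp cE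
  have m3 : MemLp (fun s => J (E1 s)) 2 (volume.restrict (Ioc 0 τ)) := mem_cont hJc.continuousOn
  refine ⟨(m1.add m2).add m3, fun a b ha hab hb => ?_⟩
  have h1 := prod_clm dL cL S.u1m S.pu ha hab hb
  have h2 : J (E b) - J (E a) = ∫ s in a..b, J (E1 s) := by
    rw [intervalIntegral.integral_eq_sub_of_hasDerivAt (f := fun s => J (E s))
      (fun t _ => J.hasFDerivAt.comp_hasDerivAt t (dE t)) (hJc.intervalIntegrable _ _)]
  have i1 : IntervalIntegrable (fun s => L1 s (v s) + L s (v1 s)) volume a b :=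
    ii_of_int ((m1.integrable (by norm_num)).add (m2.integrable (by norm_num))) ha hab hb
  rw [intervalIntegral.integral_add i1 (hJc.intervalIntegrable _ _), ← h1, ← h2]
  abel

/-- the inequality for the derivative, from time `0` -/
theorem lim0 {F F1 : ℝ → K} (Fr : Frame W m C) (U : Univ W m c) (hν : 0 < ν) (hT : 0 < τ)
    (hF : FH τ F F1) (S : Str W m ν τ F v v1 z z1) {t B : ℝ} (h0t : 0 < t) (htT : t < τ)
    (dt : HasDerivAt v (v1 t) t) (hB : ∀ h ∈ Ioc 0 τ, ‖v h - v 0‖ ≤ B * h) :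
    ‖v1 t‖ ^ 2 ≤ B ^ 2 + 2 / ν * (∫ s in (0 : ℝ)..t, ‖F1 s‖ ^ 2) +
        14 * c ^ 4 / ν ^ 3 * ∫ s in (0 : ℝ)..t, ‖v1 s‖ ^ 2 * ‖z s‖ ^ 4 := by
  set h : ℕ → ℝ := fun n => (τ - t) / (n + 1) with hh
  have hTt : 0 < τ - t := by linarith
  have hpos : ∀ n, 0 < h n := fun n => by rw [hh]; positivity
  have hle : ∀ n, t + h n ≤ τ := by
    intro n
    have : h n ≤ τ - t := by
      rw [hh]
      refine div_le_self hTt.le ?_
      have : (0 : ℝ) ≤ n := Nat.cast_nonneg n
      linarith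
    linarith
  have hlim0 : Tendsto h atTop (𝓝 0) := by
    have := (tendsto_one_div_add_atTop_nhds_zero_nat (𝕜 := ℝ)).const_mul (τ - t)
    rw [mul_zero] at this
    refine this.congr fun n => ?_
    rw [hh]; ring
  have hlim : Tendsto h atTop (𝓝[>] 0) :=
    tendsto_nhdsWithin_iff.2 ⟨hlim0, Eventually.of_forall fun n => hpos n⟩
  have hzc : ContinuousOn z (Icc 0 τ) := prim_cont S.z1m S.pz
  have huc : ContinuousOn v (Icc 0 τ) := prim_cont S.u1m S.pu
  have hF2 : Integrable (fun s => ‖F1 s‖ ^ 2) (volume.restrict (Ioc 0 τ)) :=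
    (memLp_two_iff_integrable_sq_norm hF.memLp.aestronglyMeasurable).mp hF.memLp
  have hdt : Tendsto (fun n => ‖(h n)⁻¹ • (v (t + h n) - v t)‖ ^ 2) atTop (𝓝 (‖v1 t‖ ^ 2)) :=
    ((dt.tendsto_slope_zero_right.comp hlim).norm).pow 2
  have hsub : (volume.restrict (Ioc 0 t) : Measure ℝ) ≤ volume.restrict (Ioc 0 τ) :=
    Measure.restrict_mono (Ioc_subset_Ioc le_rfl htT.le) le_rfl
  have hdu : ∀ᵐ s ∂(volume.restrict (Ioc 0 t)),
      Tendsto (fun n => ‖(h n)⁻¹ • (v (s + h n) - v s)‖ ^ 2 * ‖z s‖ ^ 4) atTop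
        (𝓝 (‖v1 s‖ ^ 2 * ‖z s‖ ^ 4)) := by
    filter_upwards [ae_mono hsub (ae_deriv_of_prim hT (memLp_ii hT.le S.u1m) S.pu)] with s hs
    exact (((hs.tendsto_slope_zero_right.comp hlim).norm).pow 2).mul_const _
  obtain ⟨c1, hc1⟩ := S.bd
  obtain ⟨Z, hZ⟩ : ∃ Z, ∀ s ∈ Icc 0 τ, ‖z s‖ ≤ Z := by
    obtain ⟨Z, hZ⟩ := (isCompact_Icc.image_of_continuousOn hzc).isBounded.exists_norm_le
    exact ⟨Z, fun s hs => hZ _ ⟨s, hs, rfl⟩⟩
  have hsI : ∀ n, ∀ s ∈ Ioc 0 t, s ∈ Icc 0 τ ∧ s + h n ∈ Icc 0 τ := by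
    intro n s hs
    have := hpos n
    have := hle n
    exact ⟨⟨by linarith [hs.1], by linarith [hs.2]⟩, ⟨by linarith [hs.1], by linarith [hs.2]⟩⟩
  have hcont : ∀ n, ContinuousOn (fun s => s + h n) (uIcc 0 t) := fun n => by fun_prop
  have hs0 : uIcc 0 t ⊆ Icc 0 τ := by
    rw [uIcc_of_le h0t.le]; exact Icc_subset_Icc le_rfl (by linarith)
  have hs1 : ∀ n, MapsTo (fun s => s + h n) (uIcc 0 t) (Icc 0 τ) := by
    intro n
    have := hpos n
    have := hle n
    rw [uIcc_of_le h0t.le]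
    exact fun s hs => ⟨by linarith [hs.1], by linarith [hs.2]⟩
  have hDc : ∀ n, ContinuousOn (fun s => ‖(h n)⁻¹ • (v (s + h n) - v s)‖ ^ 2 * ‖z s‖ ^ 4)
      (uIcc 0 t) := fun n => ((((continuousOn_const.smul
      ((huc.comp (hcont n) (hs1 n)).sub (huc.mono hs0)))).norm).pow 2).mul
      ((hzc.mono hs0).norm.pow 4)
  have hlimD : Tendsto (fun n => ∫ s in (0 : ℝ)..t, ‖(h n)⁻¹ • (v (s + h n) - v s)‖ ^ 2 *
      ‖z s‖ ^ 4) atTop (𝓝 (∫ s in (0 : ℝ)..t, ‖v1 s‖ ^ 2 * ‖z s‖ ^ 4)) := by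
    refine intervalIntegral.tendsto_integral_filter_of_dominated_convergence
      (fun _ => (max c1 0) ^ 2 * Z ^ 4) ?_ ?_ intervalIntegrable_const ?_
    · refine Eventually.of_forall fun n => ?_
      rw [uIoc_of_le h0t.le]
      have := (hDc n)
      rw [uIcc_of_le h0t.le] at this
      exact (this.mono Ioc_subset_Icc_self).aestronglyMeasurable measurableSet_Ioc
    · refine Eventually.of_forall fun n => Eventually.of_forall fun s hs => ?_
      rw [uIoc_of_le h0t.le] at hs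
      obtain ⟨k1, k2⟩ := hsI n s hs
      have k3 : ‖v (s + h n) - v s‖ ≤ max c1 0 * h n := by
        rw [S.pu s (s + h n) k1.1 (by linarith [hpos n]) k2.2]
        have k4 := intervalIntegral.norm_integral_le_of_norm_le_const_ae (f := v1) (a := s)
          (b := s + h n) (C := max c1 0) (by
            rw [ae_restrict_iff' measurableSet_Ioc] at hc1
            filter_upwards [hc1] with x hx hx2
            rw [uIoc_of_le (by linarith [hpos n])] at hx2
            exact (hx ⟨by linarith [hx2.1, k1.1], by linarith [hx2.2, k2.2]⟩).trans (le_max_left _ _))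
        rwa [add_sub_cancel_left, abs_of_pos (hpos n)] at k4
      have k5 : ‖(h n)⁻¹ • (v (s + h n) - v s)‖ ≤ max c1 0 := by
        rw [norm_smul, norm_inv, Real.norm_eq_abs, abs_of_pos (hpos n), inv_mul_le_iff₀ (hpos n),
          mul_comm]
        exact k3
      rw [Real.norm_of_nonneg (by positivity)]
      have k6 := hZ s k1
      gcongr
    · rw [← ae_restrict_iff' measurableSet_uIoc, uIoc_of_le h0t.le]
      exact hdu
  have hlimF : Tendsto (fun n => ∫ s in (0 : ℝ)..(t + h n), ‖F1 s‖ ^ 2) atTop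
      (𝓝 (∫ s in (0 : ℝ)..t, ‖F1 s‖ ^ 2)) := by
    have hi : IntegrableOn (fun s => ‖F1 s‖ ^ 2) (uIcc 0 τ) volume := by
      rw [uIcc_of_le (h0t.le.trans htT.le), integrableOn_Icc_iff_integrableOn_Ioc]
      exact hF2
    have hc := intervalIntegral.continuousOn_primitive_interval hi
    rw [uIcc_of_le (h0t.le.trans htT.le)] at hc
    have h1 := hc t ⟨h0t.le, htT.le⟩
    have h2 : Tendsto (fun n => t + h n) atTop (𝓝[Icc 0 τ] t) := by
      refine tendsto_nhdsWithin_iff.2 ⟨?_, Eventually.of_forall fun n => ⟨?_, hle n⟩⟩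
      · simpa using hlim0.const_add t
      · linarith [hpos n]
    exact h1.tendsto.comp h2
  have hineq : ∀ n, ‖(h n)⁻¹ • (v (t + h n) - v t)‖ ^ 2 ≤
      B ^ 2 + 2 / ν * (∫ s in (0 : ℝ)..(t + h n), ‖F1 s‖ ^ 2) + 14 * c ^ 4 / ν ^ 3 *
        (∫ s in (0 : ℝ)..t, ‖(h n)⁻¹ • (v (s + h n) - v s)‖ ^ 2 * ‖z s‖ ^ 4) := by
    intro n
    have hn := hpos n
    have e0 : ∀ {Y : Type} [NormedAddCommGroup Y] [InnerProductSpace ℝ Y] (x : Y),
        ‖(h n)⁻¹ • x‖ ^ 2 = ((h n) ^ 2)⁻¹ * ‖x‖ ^ 2 := by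
      intro Y _ _ x
      rw [norm_smul, norm_inv, Real.norm_eq_abs, abs_of_pos hn, mul_pow, inv_pow]
    have e1 := Pool.Agent.W790.TQ.diff_ineq Fr U hν hT hF S hn le_rfl h0t (hle n)
    rw [zero_add] at e1
    have hz : 0 ≤ ν * ∫ s in (0 : ℝ)..t, ‖z (s + h n) - z s‖ ^ 2 :=
      mul_nonneg hν.le (intervalIntegral.integral_nonneg h0t.le fun s _ => sq_nonneg _)
    have hb : ‖v (h n) - v 0‖ ^ 2 ≤ B ^ 2 * (h n) ^ 2 := by
      have := hB (h n) ⟨hn, by linarith [hle n]⟩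
      rw [← mul_pow]
      exact pow_le_pow_left₀ (norm_nonneg _) this 2
    simp only [e0]
    have e3 : ∫ s in (0 : ℝ)..t, (((h n) ^ 2)⁻¹ * ‖v (s + h n) - v s‖ ^ 2) * ‖z s‖ ^ 4 =
        ((h n) ^ 2)⁻¹ * ∫ s in (0 : ℝ)..t, ‖v (s + h n) - v s‖ ^ 2 * ‖z s‖ ^ 4 := by
      rw [← intervalIntegral.integral_const_mul]
      exact intervalIntegral.integral_congr fun s _ => by ring
    rw [e3]
    have e4 : ‖v (t + h n) - v t‖ ^ 2 ≤ B ^ 2 * (h n) ^ 2 +
        2 / ν * ((∫ s in (0 : ℝ)..(t + h n), ‖F1 s‖ ^ 2) * (h n) ^ 2) +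
        14 * c ^ 4 / ν ^ 3 * ∫ s in (0 : ℝ)..t, ‖v (s + h n) - v s‖ ^ 2 * ‖z s‖ ^ 4 := by
      linarith
    have e5 := mul_le_mul_of_nonneg_left e4 (by positivity : 0 ≤ ((h n) ^ 2)⁻¹)
    refine e5.trans (le_of_eq ?_)
    have hn2 : (h n) ^ 2 ≠ 0 := by positivity
    field_simp
  exact le_of_tendsto_of_tendsto' hdt ((hlimF.const_mul (2 / ν)).const_add (B ^ 2) |>.add
    (hlimD.const_mul (14 * c ^ 4 / ν ^ 3))) hineq

end Run7.h888.DD
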