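import Pool.Agent.Run7.h888.DD.APb

/-! Piece AP, part c: bound of the time derivative and of the gradient. -/

set_option autoImplicit false
set_option linter.unusedSectionVars false

open MeasureTheory Set Filter Topology Metric
open scoped InnerProductSpace NNReal ENNReal

namespace Run7.h888.DD

open H772R2.NSR (Frame prim_cont memLp_ii ae_deriv_of_prim prim_shift hasDerivAt_prim
  prim_continuousOn ii_of_cont ii_mono)
open H772R2.NSG (St by_parts ii_of_int int_inner mem_cont)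
open Pool.Agent.W795.TQ (Str Univ FH)
open Run7.h744.DD (IsJ Bg wt)

variable {H K : Type} [NormedAddCommGroup H] [InnerProductSpace ℝ H] [CompleteSpace H]
  [NormedAddCommGroup K] [InnerProductSpace ℝ K] [CompleteSpace K]
  {W : Submodule ℝ (H × K)} {m : H → K} {C c ν τ : ℝ} {J : H →L[ℝ] K}
  {L L1 : ℝ → H →L[ℝ] K} {E E1 : ℝ → H} {v v1 : ℝ → H} {z z1 : ℝ → K}

/-- the bound of the time derivative -/
theorem v1_bd (Fr : Frame W m C) (U : Univ W m c) (hJ : IsJ W C J) (hν : 0 < ν) (hτ : 0 < τ)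
    (dL : ∀ t, HasDerivAt L (L1 t) t) (cL : Continuous L1)
    (dE : ∀ t, HasDerivAt E (E1 t) t) (cE : Continuous E1)
    (S : Str W m ν τ (fun t => L t (v t) + J (E t)) v v1 z z1) {a b : ℝ → ℝ}
    (ha : Continuous a) (hb : Continuous b) (hLa : ∀ t ∈ Icc 0 τ, ‖L t‖ ≤ a t)
    (hLb : ∀ t ∈ Icc 0 τ, ‖L1 t‖ ≤ b t) (hEb : ∀ t ∈ Icc 0 τ, ‖E1 t‖ ≤ b t)
    {B Sv A2 B2 T : ℝ} (hB : ∀ h ∈ Ioc 0 τ, ‖v h - v 0‖ ≤ B * h)
    (hSv : ∀ t ∈ Icc 0 τ, ‖v t‖ ≤ Sv) (hA2 : ∫ s in (0 : ℝ)..τ, a s ^ 2 ≤ A2)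
    (hB2 : ∫ s in (0 : ℝ)..τ, b s ^ 2 ≤ B2) (hT : T ∈ Ioc 0 τ)
    (hz4 : ∫ s in (0 : ℝ)..T, ‖z s‖ ^ 4 ≤ 1) :
    ∀ᵐ t ∂(volume.restrict (Ioc 0 T)), ‖v1 t‖ ^ 2 ≤
      (B ^ 2 + 6 / ν * ((Sv ^ 2 + C ^ 2) * B2)) *
        Real.exp (6 / ν * A2 + 14 * c ^ 4 / ν ^ 3) := by
  set k : ℝ := 14 * c ^ 4 / ν ^ 3 with hk
  have hk0 : 0 ≤ k := by rw [hk]; positivity
  set K0 : ℝ := B ^ 2 + 6 / ν * ((Sv ^ 2 + C ^ 2) * B2) with hK0
  have hzc : ContinuousOn z (Icc 0 τ) := prim_cont S.z1m S.pz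
  have hvc : ContinuousOn v (Icc 0 τ) := prim_cont S.u1m S.pu
  have hTT : Icc 0 T ⊆ Icc 0 τ := Icc_subset_Icc_right hT.2
  have hLc : Continuous L := continuous_iff_continuousAt.2 fun t => (dL t).continuousAt
  have hB20 : 0 ≤ B2 := le_trans (intervalIntegral.integral_nonneg hτ.le
    fun t _ => sq_nonneg _) hB2
  have hK00 : 0 ≤ K0 := by rw [hK0]; positivity
  have ha0 : ∀ t ∈ Icc 0 τ, 0 ≤ a t := fun t ht => (norm_nonneg _).trans (hLa t ht)
  set β : ℝ → ℝ := fun s => 6 / ν * a s ^ 2 + k * ‖z s‖ ^ 4 with hβ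
  have hβc : ContinuousOn β (Icc 0 τ) :=
    (continuousOn_const.mul (ha.continuousOn.pow 2)).add (continuousOn_const.mul (hzc.norm.pow 4))
  have hβ0 : ∀ t, 0 ≤ β t := fun t => by rw [hβ]; positivity
  -- integrability
  have hY : Integrable (fun s => ‖v1 s‖ ^ 2) (volume.restrict (Ioc 0 τ)) :=
    (memLp_two_iff_integrable_sq_norm S.u1m.aestronglyMeasurable).mp S.u1m
  have hmul : ∀ {g : ℝ → ℝ}, ContinuousOn g (Icc 0 τ) →
      Integrable (fun s => g s * ‖v1 s‖ ^ 2) (volume.restrict (Ioc 0 τ)) := by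
    intro g hg
    obtain ⟨M, hM⟩ := (isCompact_Icc.image_of_continuousOn hg).isBounded.exists_norm_le
    refine (hY.norm.const_mul M).mono'
      (((hg.mono Ioc_subset_Icc_self).aestronglyMeasurable measurableSet_Ioc).mul
        hY.aestronglyMeasurable) ?_
    filter_upwards [ae_restrict_mem measurableSet_Ioc] with s hs
    rw [norm_mul]
    exact mul_le_mul_of_nonneg_right (hM _ ⟨s, Ioc_subset_Icc_self hs, rfl⟩) (norm_nonneg _)
  have hβY : Integrable (fun s => β s * ‖v1 s‖ ^ 2) (volume.restrict (Ioc 0 τ)) := hmul hβc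
  have haY : Integrable (fun s => a s ^ 2 * ‖v1 s‖ ^ 2) (volume.restrict (Ioc 0 τ)) :=
    hmul (ha.continuousOn.pow 2)
  have hzY : Integrable (fun s => ‖v1 s‖ ^ 2 * ‖z s‖ ^ 4) (volume.restrict (Ioc 0 τ)) :=
    (hmul (hzc.norm.pow 4)).congr (Eventually.of_forall fun s => mul_comm _ _)
  have FHF := force_FH dL cL dE cE S
  set F1 : ℝ → K := fun s => (L1 s (v s) + L s (v1 s)) + J (E1 s) with hF1
  have hF2 : Integrable (fun s => ‖F1 s‖ ^ 2) (volume.restrict (Ioc 0 τ)) :=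
    (memLp_two_iff_integrable_sq_norm FHF.memLp.aestronglyMeasurable).mp FHF.memLp
  set R : ℝ → ℝ := fun t => K0 + ∫ s in (0 : ℝ)..t, β s * ‖v1 s‖ ^ 2 with hR
  have hRc : ContinuousOn R (Icc 0 τ) := by
    refine continuousOn_const.add ?_
    have hi : IntegrableOn (fun s => β s * ‖v1 s‖ ^ 2) (uIcc 0 τ) volume := by
      rw [uIcc_of_le hτ.le, integrableOn_Icc_iff_integrableOn_Ioc]
      exact hβY
    have := intervalIntegral.continuousOn_primitive_interval hi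
    rwa [uIcc_of_le hτ.le] at this
  -- the bound of the force
  have hFt : ∀ t ∈ Icc 0 τ, ∫ s in (0 : ℝ)..t, ‖F1 s‖ ^ 2 ≤
      3 * ((Sv ^ 2 + C ^ 2) * B2) + 3 * ∫ s in (0 : ℝ)..t, a s ^ 2 * ‖v1 s‖ ^ 2 := by
    intro t ht
    have i1 : IntervalIntegrable (fun s => ‖F1 s‖ ^ 2) volume 0 t := ii_of_int hF2 le_rfl ht.1 ht.2
    have i2 : IntervalIntegrable (fun s => 3 * ((Sv ^ 2 + C ^ 2) * b s ^ 2)) volume 0 t :=
      (by fun_prop : Continuous fun s => 3 * ((Sv ^ 2 + C ^ 2) * b s ^ 2)).intervalIntegrable _ _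
    have i3 : IntervalIntegrable (fun s => 3 * (a s ^ 2 * ‖v1 s‖ ^ 2)) volume 0 t :=
      (ii_of_int haY le_rfl ht.1 ht.2).const_mul 3
    have h1 : ∫ s in (0 : ℝ)..t, ‖F1 s‖ ^ 2 ≤
        ∫ s in (0 : ℝ)..t, (3 * ((Sv ^ 2 + C ^ 2) * b s ^ 2) + 3 * (a s ^ 2 * ‖v1 s‖ ^ 2)) := by
      refine intervalIntegral.integral_mono_on ht.1 i1 (i2.add i3) fun s hs => ?_
      have hs' : s ∈ Icc 0 τ := ⟨hs.1, hs.2.trans ht.2⟩
      have n1 : ‖L1 s (v s)‖ ≤ b s * Sv := ((L1 s).le_opNorm _).trans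
        (mul_le_mul (hLb s hs') (hSv s hs') (norm_nonneg _) ((norm_nonneg _).trans (hLb s hs')))
      have n2 : ‖L s (v1 s)‖ ≤ a s * ‖v1 s‖ := ((L s).le_opNorm _).trans
        (mul_le_mul_of_nonneg_right (hLa s hs') (norm_nonneg _))
      have n3 : ‖J (E1 s)‖ ≤ C * b s := (hJ.bd _).trans
        (mul_le_mul_of_nonneg_left (hEb s hs') Fr.C0.le)
      have n4 : ‖F1 s‖ ≤ b s * Sv + a s * ‖v1 s‖ + C * b s := by
        rw [hF1]
        refine (norm_add_le _ _).trans (add_le_add ((norm_add_le _ _).trans (add_le_add n1 n2)) n3)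
      have n5 : ‖F1 s‖ ^ 2 ≤ (b s * Sv + a s * ‖v1 s‖ + C * b s) ^ 2 :=
        pow_le_pow_left₀ (norm_nonneg _) n4 2
      have n6 : 3 * ((Sv ^ 2 + C ^ 2) * b s ^ 2) + 3 * (a s ^ 2 * ‖v1 s‖ ^ 2) -
          (b s * Sv + a s * ‖v1 s‖ + C * b s) ^ 2 = (b s * Sv - a s * ‖v1 s‖) ^ 2 +
          (b s * Sv - C * b s) ^ 2 + (a s * ‖v1 s‖ - C * b s) ^ 2 := by ring
      have n7 := sq_nonneg (b s * Sv - a s * ‖v1 s‖)
      have n8 := sq_nonneg (b s * Sv - C * b s)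
      have n9 := sq_nonneg (a s * ‖v1 s‖ - C * b s)
      linarith
    rw [intervalIntegral.integral_add i2 i3, intervalIntegral.integral_const_mul,
      intervalIntegral.integral_const_mul, intervalIntegral.integral_const_mul] at h1
    have h2 : ∫ s in (0 : ℝ)..t, b s ^ 2 ≤ ∫ s in (0 : ℝ)..τ, b s ^ 2 :=
      ii_mono (hb.continuousOn.pow 2) (fun s _ => sq_nonneg _) ht
    have h3 := mul_le_mul_of_nonneg_left (h2.trans hB2) (by positivity : 0 ≤ Sv ^ 2 + C ^ 2)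
    linarith
  -- the inequality for almost every time
  have hYR : ∀ᵐ t ∂(volume.restrict (Ioc 0 τ)), ‖v1 t‖ ^ 2 ≤ R t := by
    have hne : ∀ᵐ s : ℝ ∂(volume.restrict (Ioc 0 τ)), s ≠ τ := by
      refine ae_restrict_of_ae ?_
      simp [ae_iff, measure_singleton]
    filter_upwards [ae_deriv_of_prim hτ (memLp_ii hτ.le S.u1m) S.pu,
      ae_restrict_mem measurableSet_Ioc, hne] with t dt ht htne
    have htT : t < τ := lt_of_le_of_ne ht.2 htne
    have h1 := lim0 Fr U hν hτ FHF S ht.1 htT dt hB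
    have h2 := mul_le_mul_of_nonneg_left (hFt t (Ioc_subset_Icc_self ht))
      (by positivity : 0 ≤ 2 / ν)
    have h3 : R t = K0 + (6 / ν * (∫ s in (0 : ℝ)..t, a s ^ 2 * ‖v1 s‖ ^ 2) +
        k * ∫ s in (0 : ℝ)..t, ‖v1 s‖ ^ 2 * ‖z s‖ ^ 4) := by
      rw [hR]
      simp only
      rw [← intervalIntegral.integral_const_mul, ← intervalIntegral.integral_const_mul,
        ← intervalIntegral.integral_add ((ii_of_int haY le_rfl ht.1.le ht.2).const_mul _)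
          ((ii_of_int hzY le_rfl ht.1.le ht.2).const_mul _)]
      congr 1
      refine intervalIntegral.integral_congr fun s _ => ?_
      rw [hβ]
      ring
    rw [h3, hK0]
    have e1 : 2 / ν * (3 * ((Sv ^ 2 + C ^ 2) * B2) +
        3 * ∫ s in (0 : ℝ)..t, a s ^ 2 * ‖v1 s‖ ^ 2) = 6 / ν * ((Sv ^ 2 + C ^ 2) * B2) +
        6 / ν * ∫ s in (0 : ℝ)..t, a s ^ 2 * ‖v1 s‖ ^ 2 := by ring
    rw [e1] at h2
    linarith
  have hsubT : (volume.restrict (Ioc 0 T) : Measure ℝ) ≤ volume.restrict (Ioc 0 τ) :=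
    Measure.restrict_mono (Ioc_subset_Ioc_right hT.2) le_rfl
  -- Gronwall
  have hg := gI (T := T) (K0 := K0) (f := R) (β := β) (hRc.mono hTT) (hβc.mono hTT)
    (fun t _ => hβ0 t) (fun t ht => by
      have i1 : IntervalIntegrable (fun s => β s * ‖v1 s‖ ^ 2) volume 0 t :=
        ii_of_int hβY le_rfl ht.1 (ht.2.trans hT.2)
      have i2 : IntervalIntegrable (fun s => β s * R s) volume 0 t :=
        ii_of_cont (hβc.mul hRc) le_rfl ht.1 (ht.2.trans hT.2)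
      have : ∫ s in (0 : ℝ)..t, β s * ‖v1 s‖ ^ 2 ≤ ∫ s in (0 : ℝ)..t, β s * R s := by
        refine intervalIntegral.integral_mono_ae_restrict ht.1 i1 i2 ?_
        rw [Filter.EventuallyLE, ← restrict_Ioc_eq_restrict_Icc]
        filter_upwards [ae_mono (Measure.restrict_mono (Ioc_subset_Ioc_right
          (ht.2.trans hT.2)) le_rfl) hYR] with s hs
        exact mul_le_mul_of_nonneg_left hs (hβ0 s)
      rw [hR]
      simp only
      linarith) hK00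
  have hβI : ∫ s in (0 : ℝ)..T, β s ≤ 6 / ν * A2 + k := by
    have i1 : IntervalIntegrable (fun s => 6 / ν * a s ^ 2) volume 0 T :=
      (by fun_prop : Continuous fun s => 6 / ν * a s ^ 2).intervalIntegrable _ _
    have i2 : IntervalIntegrable (fun s => k * ‖z s‖ ^ 4) volume 0 T :=
      ii_of_cont (continuousOn_const.mul (hzc.norm.pow 4)) le_rfl hT.1.le hT.2
    rw [hβ, intervalIntegral.integral_add i1 i2, intervalIntegral.integral_const_mul,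
      intervalIntegral.integral_const_mul]
    have h2 : ∫ s in (0 : ℝ)..T, a s ^ 2 ≤ ∫ s in (0 : ℝ)..τ, a s ^ 2 :=
      ii_mono (ha.continuousOn.pow 2) (fun s _ => sq_nonneg _) (Ioc_subset_Icc_self hT)
    have h3 := mul_le_mul_of_nonneg_left (h2.trans hA2) (by positivity : 0 ≤ 6 / ν)
    have h4 := mul_le_mul_of_nonneg_left hz4 hk0
    linarith
  filter_upwards [ae_mono hsubT hYR, ae_restrict_mem measurableSet_Ioc] with t h1 h2
  refine h1.trans ((hg t (Ioc_subset_Icc_self h2)).trans ?_)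
  exact mul_le_mul_of_nonneg_left (Real.exp_le_exp.2 hβI) hK00

/-- a bound almost everywhere is a bound everywhere -/
theorem ae_to_all {T M : ℝ} (hT : 0 < T) {f : ℝ → ℝ} (hf : ContinuousOn f (Icc 0 T))
    (h : ∀ᵐ t ∂(volume.restrict (Ioc 0 T)), f t ≤ M) : ∀ t ∈ Icc 0 T, f t ≤ M := by
  rw [ae_restrict_iff' measurableSet_Ioc] at h
  have hD : Dense {x : ℝ | x ∈ Ioc 0 T → f x ≤ M} := Measure.dense_of_ae h
  have h1 : Ioo 0 T ⊆ closure (Ioo 0 T ∩ {x : ℝ | x ∈ Ioc 0 T → f x ≤ M}) :=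
    hD.open_subset_closure_inter isOpen_Ioo
  have h2 : Icc 0 T ⊆ closure (Ioo 0 T ∩ {x : ℝ | x ∈ Ioc 0 T → f x ≤ M}) := by
    rw [← closure_Ioo hT.ne]
    exact closure_minimal h1 isClosed_closure
  have h3 : closure (Ioo 0 T ∩ {x : ℝ | x ∈ Ioc 0 T → f x ≤ M}) ⊆ Icc 0 T := by
    rw [← closure_Ioo hT.ne]
    exact closure_mono inter_subset_left
  intro t ht
  exact le_on_closure (f := f) (g := fun _ => M) (fun x hx => hx.2 (Ioo_subset_Ioc_self hx.1))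
    (hf.mono h3) continuousOn_const (h2 ht)

/-- the bound of the gradient -/
theorem z_bd (Fr : Frame W m C) (hJ : IsJ W C J) (hν : 0 < ν) (hτ : 0 < τ)
    (hL : Continuous L) (hE : Continuous E)
    (S : Str W m ν τ (fun t => L t (v t) + J (E t)) v v1 z z1)
    {a0 Sv N T : ℝ} (hLa : ∀ t ∈ Icc 0 τ, ‖L t‖ ≤ a0) (hEa : ∀ t ∈ Icc 0 τ, ‖E t‖ ≤ a0)
    (hSv : ∀ t ∈ Icc 0 τ, ‖v t‖ ≤ Sv) (hT : T ∈ Ioc 0 τ)
    (hN : ∀ᵐ t ∂(volume.restrict (Ioc 0 T)), ‖v1 t‖ ≤ N) :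
    ∀ t ∈ Icc 0 T, ‖z t‖ ^ 2 ≤ a0 ^ 2 / ν ^ 2 * Sv ^ 2 + 2 / ν * ((a0 + N) * Sv) := by
  have hzc : ContinuousOn z (Icc 0 τ) := prim_cont S.z1m S.pz
  have hvc : ContinuousOn v (Icc 0 τ) := prim_cont S.u1m S.pu
  have hFc : ContinuousOn (fun t => L t (v t) + J (E t)) (Icc 0 τ) :=
    (hL.continuousOn.clm_apply hvc).add (J.continuous.comp hE).continuousOn
  have hTT : Icc 0 T ⊆ Icc 0 τ := Icc_subset_Icc_right hT.2
  have hsubT : (volume.restrict (Ioc 0 T) : Measure ℝ) ≤ volume.restrict (Ioc 0 τ) :=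
    Measure.restrict_mono (Ioc_subset_Ioc_right hT.2) le_rfl
  obtain ⟨Z, St1⟩ := Pool.Agent.W503.TQ.toSt hFc S
  have hw := St1.deriv_weak Fr hτ
  refine ae_to_all hT.1 ((hzc.mono hTT).norm.pow 2) ?_
  filter_upwards [ae_mono hsubT hw, hN, ae_restrict_mem measurableSet_Ioc] with t k1 k2 k3
  have ht : t ∈ Icc 0 τ := hTT (Ioc_subset_Icc_self k3)
  have hm := S.mem t ht
  have e1 := k1 _ hm
  have e2 := Fr.ortho _ hm
  have e3 := hJ.rep (E t) _ hm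
  simp only at e1 e2 e3
  rw [inner_add_left, inner_sub_left, inner_add_left, real_inner_smul_left,
    real_inner_self_eq_norm_sq, e2, e3] at e1
  have ha0 : 0 ≤ a0 := (norm_nonneg _).trans (hLa t ht)
  have hS0 : 0 ≤ Sv := (norm_nonneg _).trans (hSv t ht)
  have hN0 : 0 ≤ N := (norm_nonneg _).trans k2
  have b1 : ⟪L t (v t), z t⟫_ℝ ≤ a0 * Sv * ‖z t‖ := by
    refine (real_inner_le_norm _ _).trans ?_
    refine mul_le_mul_of_nonneg_right ?_ (norm_nonneg _)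
    exact ((L t).le_opNorm _).trans (mul_le_mul (hLa t ht) (hSv t ht) (norm_nonneg _) ha0)
  have b2 : ⟪E t, v t⟫_ℝ ≤ a0 * Sv :=
    (real_inner_le_norm _ _).trans (mul_le_mul (hEa t ht) (hSv t ht) (norm_nonneg _) ha0)
  have b3 : -⟪v1 t, v t⟫_ℝ ≤ N * Sv := by
    rw [← inner_neg_left]
    refine (real_inner_le_norm _ _).trans ?_
    rw [norm_neg]
    exact mul_le_mul k2 (hSv t ht) (norm_nonneg _) hN0
  have b4 : a0 * Sv * ‖z t‖ ≤ ν / 2 * ‖z t‖ ^ 2 + 1 / 2 * (a0 ^ 2 / ν * Sv ^ 2) := by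
    have e1 : ν / 2 * ‖z t‖ ^ 2 + 1 / 2 * (a0 ^ 2 / ν * Sv ^ 2) - a0 * Sv * ‖z t‖ =
        1 / (2 * ν) * (ν * ‖z t‖ - a0 * Sv) ^ 2 := by
      field_simp; ring
    have : 0 ≤ 1 / (2 * ν) * (ν * ‖z t‖ - a0 * Sv) ^ 2 := by positivity
    linarith
  have b5 : ν / 2 * ‖z t‖ ^ 2 ≤ 1 / 2 * (a0 ^ 2 / ν * Sv ^ 2) + (a0 + N) * Sv := by
    linarith
  have b6 : ‖z t‖ ^ 2 = 2 / ν * (ν / 2 * ‖z t‖ ^ 2) := by field_simp
  have b7 : a0 ^ 2 / ν ^ 2 * Sv ^ 2 + 2 / ν * ((a0 + N) * Sv) =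
      2 / ν * (1 / 2 * (a0 ^ 2 / ν * Sv ^ 2) + (a0 + N) * Sv) := by field_simp
  rw [b6, b7]
  exact mul_le_mul_of_nonneg_left b5 (by positivity)

end Run7.h888.DD
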